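import Pool.Agent.H241R3.FV.Asm
import Pool.Agent.H241R3.FV.TEven
import Pool.Agent.H241R3.FV.TGen
import Pool.Agent.H241R3.FV.TParity
import Pool.Agent.H241R3.FV.TCoverT

/-!
# An explicit lower bound for the volume of all fillings of the round sphere

The distance functions of the sphere extend to 1-Lipschitz functions `f_x` on the filling `M`; the map
`q ↦ -∫ f_x(q) x dx` from `M` to `ℝ^(d+1)` is a multiple of the inclusion on the boundary sphere, so it
covers a ball, and the absolute value of its Jacobian determinant is at most the `(d+1)`-st power of the
volume of the unit ball (polar decomposition and the inequality of the means).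
-/

set_option autoImplicit false

open MeasureTheory

namespace Pool.Agent.Results.MP_aeade1_gt.AllFillings

open Pool.Agent.H241R3.FV

/-- Every nonshortcutting filling `M` of the round sphere `S^d` (compact, orientable or not, of any
topology: triangulated, or such that `M` does not retract onto its boundary) has volume at least
`vol(B^(d+1)) * (∫_0^π sin^d / ∫_0^π sin^(d+1))^(d+1)`. -/
theorem result (d : ℕ) (hd : 1 ≤ d) (M : Type) [MetricSpace M] [CompactSpace M] (S : Fill d M)
    (hS : S.NonShort) (htop : S.Triangulated ∨ S.NoRetraction) :
    volume (Metric.ball (0 : E (d + 1)) 1) * ENNReal.ofReal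
      (((∫ t in (0 : ℝ)..Real.pi, Real.sin t ^ d) /
        ∫ t in (0 : ℝ)..Real.pi, Real.sin t ^ (d + 1)) ^ (d + 1)) ≤ S.vol :=
  main_mod TGen.taskGen TEven.taskEven TParity.taskParity TCoverT.taskCoverT d hd M S hS htop

end Pool.Agent.Results.MP_aeade1_gt.AllFillings
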