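import Pool.Agent.H971R3.FV.Pub
import Pool.Agent.H971R3.FV.PubProof
import Pool.Agent.H802R3.FV.FVWallis
import Pool.Agent.H357R3.FVFubini
import Pool.Agent.H023R3.FV.TaskSphere
import Pool.Agent.H169R3.FVAvg
import Pool.Agent.H246R3.FVRepar
import Pool.Agent.H3R3.FVVol

/-!
# Fillings of the round sphere with a conformally rotationally symmetric collar

The definitions are in `Pool.Agent.H971R3.FV.Pub`.
-/

set_option autoImplicit false

namespace Pool.Agent.Results.MP_aeade1_gt.ConformalCollar

open Pool.Agent.H971R3.FV MeasureTheory Set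

/-- The sharp filling inequality `μ(X) ≥ vol(S^(d+1)) / 2` for a metric measure space `X` with a
collar conformal to a rotationally symmetric metric, that is a ball or such that the radial lines
have mean length at least `π/2`, when antipodal points of the boundary sphere have distance at
least `π`. -/
theorem result (d : ℕ) (hd : 1 ≤ d) (X : Type) [MetricSpace X] [MeasurableSpace X]
    (μ : Measure X) (L : ℝ) (f : ℝ → ℝ) (φ : ℝ → Eu (d + 1) → ℝ) (Φ : ℝ → Eu (d + 1) → X)
    (h : Collar d μ L f φ Φ)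
    (hcap : f 0 = 0 ∨ Real.pi / 2 * (sig d).real univ ≤
      ∫ r in (0 : ℝ)..L, ∫ u, φ r (inc u) ∂(sig d))
    (hns : ∀ x : Eu (d + 1), ‖x‖ = 1 → Real.pi ≤ dist (Φ L x) (Φ L (-x))) :
    sig (d + 1) univ / 2 ≤ μ univ :=
  pub_of taskWallis Pool.Agent.H023R3.FV.taskSphere
    Pool.Agent.H357R3.FVFubini.taskFubini Pool.Agent.H169R3.FVAvg.taskAvg
    Pool.Agent.H246R3.FVRepar.taskRepar Pool.Agent.H3R3.FVVol.taskVol
    d hd X μ L f φ Φ h hcap hns

end Pool.Agent.Results.MP_aeade1_gt.ConformalCollar
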