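import Pool.Agent.H241R3.FV.TInv
import Pool.Agent.H241R3.FV.TPolar
import Pool.Agent.H241R3.CF.Final
import Pool.Agent.H241R3.CF.TAvg
import Pool.Agent.H241R3.CF.TCont
import Pool.Agent.H241R3.CF.TLen
import Pool.Agent.H241R3.CF.TPath
import Pool.Agent.H241R3.CF.TOne
import Pool.Agent.H241R3.CF.TLayer
import Pool.Agent.H241R3.CF.TWal
import Pool.Agent.H241R3.CF.TVol
import Pool.Agent.H241R3.CC.Final
import Pool.Agent.H241R3.CC.TExt
import Pool.Agent.H241R3.CC.TExtVol
import Pool.Agent.H241R3.CC.TPathC
import Pool.Agent.H241R3.CC.TWidthC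

/-!
# Sharp filling volume inequality in rotationally symmetric conformal classes

Averaging the conformal factor over the rotations gives a rotationally symmetric metric, for which
the bound follows from a family of test curves and the layer cake formula.
-/

set_option autoImplicit false

namespace Pool.Agent.Results.MP_aeade1_gt.RotationalClass

open Pool.Agent.H241R3.FV (om)
open Pool.Agent.H241R3.CF (ConfFill)
open Pool.Agent.H241R3.CC (ConfCollar)

/-- Conformally flat collars of `S^d` whose inner sphere is glued by the antipodal map (`ℝP^(d+1)`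
minus a ball) or is at distance at least `π/2` from the boundary, and conformally flat metrics on
the punctured ball, with antipodal boundary points at distance at least `π`, have volume at least
half the volume of the unit sphere `S^(d+1)`. -/
theorem result (d : ℕ) (hd : 1 ≤ d) (M : Type) [MetricSpace M] :
    (∀ S : ConfCollar d M, S.Antipodal → S.Core →
      ENNReal.ofReal ((d + 2 : ℝ) * om (d + 2) / 2) ≤ S.vol) ∧
    (∀ S : ConfFill d M, S.Antipodal →
      ENNReal.ofReal ((d + 2 : ℝ) * om (d + 2) / 2) ≤ S.vol) :=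
  ⟨fun S hS hc => Pool.Agent.H241R3.CC.mainCC_of Pool.Agent.H241R3.FV.TPolar.taskPolar
      Pool.Agent.H241R3.FV.TInv.taskInv Pool.Agent.H241R3.CF.TAvg.taskAvg
      Pool.Agent.H241R3.CF.TCont.taskCont Pool.Agent.H241R3.CF.TLen.taskLen
      Pool.Agent.H241R3.CF.TOne.taskOne Pool.Agent.H241R3.CF.TLayer.taskLayer
      Pool.Agent.H241R3.CF.TWal.taskWal Pool.Agent.H241R3.CF.TVol.taskVol
      Pool.Agent.H241R3.CC.TExt.taskExt Pool.Agent.H241R3.CC.TExtVol.taskExtVol
      Pool.Agent.H241R3.CC.taskPathC Pool.Agent.H241R3.CC.taskWidthC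
      d hd M S hS hc,
    fun S hS => Pool.Agent.H241R3.CF.mainCF_of Pool.Agent.H241R3.FV.TPolar.taskPolar
      Pool.Agent.H241R3.FV.TInv.taskInv Pool.Agent.H241R3.CF.TAvg.taskAvg
      Pool.Agent.H241R3.CF.TCont.taskCont Pool.Agent.H241R3.CF.TLen.taskLen
      Pool.Agent.H241R3.CF.taskPath Pool.Agent.H241R3.CF.TOne.taskOne
      Pool.Agent.H241R3.CF.TLayer.taskLayer Pool.Agent.H241R3.CF.TWal.taskWal
      Pool.Agent.H241R3.CF.TVol.taskVol d hd M S hS⟩

end Pool.Agent.Results.MP_aeade1_gt.RotationalClass
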